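import Pool.Agent.RCM.StmtsA
import Pool.Agent.Helper35_RCM.Base

/-! # Squad RCA, row CLF (uses RNB): the flat of a bounded closure. -/

set_option autoImplicit false

namespace Pool.Agent.RCM.H29

open Set

universe u

theorem clf (hR : RnbStmt.{u}) : ClfStmt.{u} := by
  intro E K _ _ M N κ s t P X T b hCol hMx hSt T₀ x₀ hRn₀ hx1 hx2 hx3
  obtain ⟨r1, _, _, r4, _⟩ := hR E K M N κ X
  set G : Set K := Gn M N κ P X (b + 1) T with hGdef
  -- freeing a colour
  have hfree : ∀ (a : ℕ) (T' : Set E) (x y : E), a ≤ b → Rn M N κ P X a T T' → y ∈ T' →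
      κ x ∉ κ '' T' → κ x ∉ X → x ∉ M.closure (T' ∪ P) → x ∉ N.closure (T' \ {y}) → κ y ∈ G := by
    intro a T' x y hab hRn hy h1 h2 h3 h4
    have hSt' := (H35.rch' E K M N κ s t P X T T' hCol hMx hSt (r4 _ _ _ _ hRn)).1
    have hmv : Mv M N κ P X T' (insert x (T' \ {y})) := ⟨x, y, hy, h1, h2, h3, h4, rfl⟩
    refine ⟨hSt'.col y hy, insert x (T' \ {y}),
      r1 _ (a + 1) (b + 1) _ _ (Nat.succ_le_succ hab) (Rn.step a _ _ _ hRn hmv), ?_⟩
    rintro ⟨z, hz, hzy⟩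
    rcases Set.mem_insert_iff.1 hz with rfl | hz
    · exact h1 ⟨y, hy, hzy.symm⟩
    · exact hz.2 (hSt'.ri.inj hz.1 hy hzy)
  -- (a)
  have ha : ∀ (a : ℕ) (T' : Set E) (x : E), a ≤ b → Rn M N κ P X a T T' → κ x ∉ X →
      κ x ∉ κ '' T' → x ∉ M.closure (T' ∪ P) → x ∈ N.closure {y ∈ T' | κ y ∈ G} := by
    intro a T' x hab hRn h2 h1 h3
    have hSt' := (H35.rch' E K M N κ s t P X T T' hCol hMx hSt (r4 _ _ _ _ hRn)).1
    have hxT : x ∈ N.closure T' := (H35.mvb' E K M N κ s t P X T' hCol hMx hSt').1 x h1 h3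
    have hc := H35.cir' E N T' {y | κ y ∉ G} x hSt'.ri.indN hxT (by
      rintro y ⟨hy, hyG⟩
      by_contra h4
      exact hyG (hfree a T' x y hab hRn hy h1 h2 h3 h4))
    have hset : T' \ {y | κ y ∉ G} = {y ∈ T' | κ y ∈ G} := by
      ext y
      simp only [Set.mem_sdiff, Set.mem_ofPred_eq, not_not]
    rwa [hset] at hc
  -- (b)
  have hb : ∀ (a : ℕ) (T' : Set E), Rn M N κ P X a T T' → a ≤ b →
      N.closure {y ∈ T' | κ y ∈ G} = N.closure {y ∈ T | κ y ∈ G} := by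
    intro a T' hRn
    induction hRn with
    | rfl a T => intro _; rfl
    | step a T T' T'' hRn hmv ih =>
      intro hab
      have hab' : a ≤ b := Nat.le_of_succ_le hab
      have ih' := ih hSt hRn₀ hGdef hfree ha hab'
      obtain ⟨x, y, hy, h1, h2, h3, h4, rfl⟩ := hmv
      have hyG : κ y ∈ G := hfree a T' x y hab' hRn hy h1 h2 h3 h4
      have hxG : κ x ∈ G := ⟨h2, T', r1 _ a (b + 1) _ _ (by omega) hRn, h1⟩
      have hxc := ha a T' x hab' hRn h2 h1 h3
      set I : Set E := {z ∈ T' | κ z ∈ G} \ {y} with hI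
      have hR1 : {z ∈ T' | κ z ∈ G} = insert y I := by
        rw [hI, Set.insert_sdiff_singleton, Set.insert_eq_of_mem]
        exact ⟨hy, hyG⟩
      have hR2 : {z ∈ insert x (T' \ {y}) | κ z ∈ G} = insert x I := by
        ext z
        simp only [hI, Set.mem_ofPred_eq, Set.mem_insert_iff, Set.mem_sdiff,
          Set.mem_singleton_iff]
        constructor
        · rintro ⟨rfl | hz, hzG⟩
          · exact Or.inl rfl
          · exact Or.inr ⟨⟨hz.1, hzG⟩, hz.2⟩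
        · rintro (rfl | ⟨⟨hz1, hz2⟩, hz3⟩)
          · exact ⟨Or.inl rfl, hxG⟩
          · exact ⟨Or.inr ⟨hz1, hz3⟩, hz2⟩
      have hxI : x ∉ N.closure I := by
        intro h
        refine h4 (N.closure_subset_closure ?_ h)
        rintro z ⟨hz1, hz2⟩
        exact ⟨hz1.1, hz2⟩
      rw [hR2, ← ih', hR1]
      rw [hR1] at hxc
      exact Matroid.closure_insert_congr ⟨hxc, hxI⟩
  rw [← hb b T₀ hRn₀ le_rfl]
  exact ha b T₀ x₀ le_rfl hRn₀ hx1 hx2 hx3

end Pool.Agent.RCM.H29
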