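import Pool.Agent.RCM.StmtsA

/-! # Squad RCA, row HML (uses OPB, GNB): hierarchical minimality. -/

set_option autoImplicit false

namespace Pool.Agent.RCM.H29

open Set

universe u

theorem hml (hO : OpbStmt.{u}) (hG : GnbStmt.{u}) : HmlStmt.{u} := by
  intro E K _ _ M N κ X g A D hA I
  obtain ⟨o1, o2, _, _⟩ := hO E K M N κ X
  obtain ⟨g1, g2, _⟩ := hG E K M N κ X
  induction I with
  | zero =>
    intro T P h
    rw [Nat.zero_mul] at h
    exact absurd h (Nat.not_lt_zero _)
  | succ I ih =>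
    intro T P h
    by_cases hR : Rob M N κ X (g (A I)) (A I) D T P
    · exact ⟨I, T, P, Nat.lt_succ_self I, Op.rfl _ _ _, hR⟩
    · unfold Rob at hR
      push Not at hR
      obtain ⟨T₁, P₁, hop, hD⟩ := hR
      have hsub : Gn M N κ P₁ X (A I) T₁ ⊆ Gn M N κ P X (A (I + 1)) T := by
        refine (g2 _ _ _ _ _ _ hop).trans (g1 _ _ _ _ ?_)
        rw [hA]
        exact Nat.le_succ _
      have hcard := Set.ncard_sdiff_add_ncard_of_subset hsub (Set.toFinite _)
      rw [← hA I] at hD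
      have hlt : (Gn M N κ P₁ X (A I) T₁).ncard < I * (D + 1) := by
        rw [Nat.add_mul, Nat.one_mul] at h
        omega
      obtain ⟨i, T', P', hi, hop', hrob⟩ := ih T₁ P₁ hlt
      refine ⟨i, T', P', Nat.lt_succ_of_lt hi, ?_, hrob⟩
      refine o1 (g (A I) + A I) _ _ _ _ _ ?_ (o2 _ _ _ _ _ _ _ _ hop hop')
      rw [hA]
      exact Nat.le_succ _

end Pool.Agent.RCM.H29
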